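import Pool.Agent.H13.LogC

namespace Pool.Agent.Results.MP_523fe6_co.AtOne

open Polynomial Finset Pool.Agent.H13.LogC

/-- the multiset coefficient `m(m+1)⋯(m+a-1)/a!` as a polynomial in `m` -/
noncomputable def mc (a : ℕ) : ℚ[X] := C (1 / (a.factorial : ℚ)) * ∏ s ∈ range a, (X + C (s : ℚ))

/-- `S_n(m,1)` for `n = 2r+1` -/
noncomputable def S1 (r : ℕ) : ℚ[X] :=
  ∑ i ∈ range r, C ((r : ℚ) - i) * (mc i * mc (2 * r + 1 - i))

theorem ev (a : ℕ) (m : ℝ) : ((mc a).map (algebraMap ℚ ℝ)).eval m = aa m a := by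
  simp [mc, aa, Polynomial.map_prod, eval_prod, div_eq_inv_mul]

theorem lc (r : ℕ) : LC ((S1 (r + 1)).map (algebraMap ℚ ℝ)) := by
  have h := (lcR r).prod (fun s => (s : ℝ)) (fun s => Nat.cast_nonneg s) (r + 1 + 1)
  convert h using 1
  apply mul_left_cancel₀ (X_ne_zero (R := ℝ))
  apply Polynomial.funext
  intro m
  have := ident m (r + 1)
  simp only [S1, Polynomial.map_sum, Polynomial.map_mul, map_C, eval_mul, eval_X, eval_finset_sum,
    eval_C, ev, eval_sub, eval_prod, eval_add, map_sub, map_natCast, Polynomial.map_sub,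
    Polynomial.map_natCast, eval_natCast]
  exact this

theorem result (r : ℕ) (hr : 1 ≤ r) (l : ℕ) :
    (S1 r).coeff l * (S1 r).coeff (l + 2) ≤ (S1 r).coeff (l + 1) ^ 2 := by
  obtain ⟨r, rfl⟩ : ∃ t, r = t + 1 := ⟨r - 1, by omega⟩
  have := (lc r).2 l l le_rfl
  simp only [coeff_map, eq_ratCast] at this
  rw [sq]
  exact_mod_cast this

end Pool.Agent.Results.MP_523fe6_co.AtOne
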